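import Pool.Agent.Helper15.DAK.Stmts

/-!
# Row UNIQ: an operator of finite order which vanishes on `K` is zero
-/

set_option autoImplicit false

namespace Pool.Agent.Helper15.DAK

open Pool.Agent.Helper15.DAF

namespace S84

theorem mulOp_apply {F : Type} [Field F] [Algebra ℂ F] (a x : F) : mulOp a x = a * x := rfl

/-- the commutator with a multiplication -/
noncomputable def cm {F : Type} [Field F] [Algebra ℂ F] (P : Module.End ℂ F) (a : F) : Module.End ℂ F :=
  P * mulOp a - mulOp a * P

theorem cm_apply {F : Type} [Field F] [Algebra ℂ F] (P : Module.End ℂ F) (a x : F) :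
    cm P a x = P (a * x) - a * P x := rfl

theorem lin_ord (K L : Type) [Field K] [Field L] [Algebra ℂ K] [Algebra ℂ L]
    [Algebra K L] [IsScalarTower ℂ K L] [FiniteDimensional K L] :
    ∀ (m : ℕ) (P : Module.End ℂ L), Ord m P →
      (∀ (k : K) (x : L), P (algebraMap K L k * x) = algebraMap K L k * P x) →
      ∀ a x : L, P (a * x) = a * P x := by
  intro m
  induction m with
  | zero =>
    intro P hP _ a x
    have h : cm P a = 0 := hP a
    have h2 := LinearMap.congr_fun h x
    rw [cm_apply, LinearMap.zero_apply, sub_eq_zero] at h2
    exact h2
  | succ m ih =>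
    intro P hP hK θ x
    have : CharZero K := charZero_of_injective_algebraMap (algebraMap ℂ K).injective
    -- the commutator with `θ`
    have h1 : Ord m (cm P θ) := hP θ
    have h1K : ∀ (k : K) (x : L),
        cm P θ (algebraMap K L k * x) = algebraMap K L k * cm P θ x := by
      intro k x
      rw [cm_apply, cm_apply, hK, mul_left_comm, hK]
      ring
    have h2 : ∀ y : L, cm P θ (θ * y) = θ * cm P θ y := fun y => ih (cm P θ) h1 h1K θ y
    have hpow : ∀ (n : ℕ) (y : L),
        P (θ ^ n * y) = θ ^ n * P y + n * θ ^ (n - 1) * cm P θ y := by
      intro n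
      induction n with
      | zero => intro y; simp
      | succ n ihn =>
        intro y
        have e1 : P (θ ^ (n + 1) * y) = P (θ ^ n * (θ * y)) := by
          congr 1
          ring
        have e2 : P (θ * y) = θ * P y + cm P θ y := by
          rw [cm_apply]
          ring
        rw [e1, ihn, h2, e2]
        rcases n with _ | n
        · simp
        · simp only [Nat.add_sub_cancel, Nat.cast_add, Nat.cast_one]
          ring
    have hpoly : ∀ (f : Polynomial K) (y : L),
        P (Polynomial.aeval θ f * y) = Polynomial.aeval θ f * P y +
          Polynomial.aeval θ (Polynomial.derivative f) * cm P θ y := by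
      intro f
      induction f using Polynomial.induction_on' with
      | add f g hf hg =>
        intro y
        rw [map_add, Polynomial.derivative_add, map_add, add_mul, map_add, hf, hg]
        ring
      | monomial n c =>
        intro y
        rw [Polynomial.aeval_monomial, Polynomial.derivative_monomial, Polynomial.aeval_monomial,
          mul_assoc, hK, hpow, map_mul, map_natCast]
        ring
    have hf := hpoly (minpoly K θ) x
    rw [minpoly.aeval, zero_mul, map_zero, zero_mul, zero_add] at hf
    have hint : IsIntegral K θ := IsIntegral.of_finite K θ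
    have hsep : (minpoly K θ).Separable := (minpoly.irreducible hint).separable
    have hne : Polynomial.aeval θ (Polynomial.derivative (minpoly K θ)) ≠ 0 :=
      hsep.aeval_derivative_ne_zero (minpoly.aeval K θ)
    have hz : cm P θ x = 0 := by
      rcases mul_eq_zero.1 hf.symm with h | h
      · exact absurd h hne
      · exact h
    rw [cm_apply, sub_eq_zero] at hz
    exact hz

theorem van_lin (K L : Type) [Field K] [Field L] [Algebra ℂ K] [Algebra ℂ L]
    [Algebra K L] [IsScalarTower ℂ K L] [FiniteDimensional K L] :
    ∀ (m : ℕ) (P : Module.End ℂ L), Ord m P → (∀ a : K, P (algebraMap K L a) = 0) → P = 0 := by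
  intro m
  induction m with
  | zero =>
    intro P hP hv
    refine LinearMap.ext fun x => ?_
    have h : cm P x = 0 := hP x
    have h2 := LinearMap.congr_fun h 1
    rw [cm_apply, LinearMap.zero_apply, mul_one] at h2
    have h3 := hv 1
    rw [map_one] at h3
    rw [h3, mul_zero, sub_zero] at h2
    rw [h2, LinearMap.zero_apply]
  | succ m ih =>
    intro P hP hv
    have hK : ∀ (k : K) (x : L), P (algebraMap K L k * x) = algebraMap K L k * P x := by
      intro k x
      have h : cm P (algebraMap K L k) = 0 := by
        refine ih _ (hP _) fun a => ?_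
        rw [cm_apply, ← map_mul, hv, hv, mul_zero, sub_zero]
      have h2 := LinearMap.congr_fun h x
      rw [cm_apply, LinearMap.zero_apply, sub_eq_zero] at h2
      exact h2
    have hL := lin_ord K L (m + 1) P hP hK
    refine LinearMap.ext fun x => ?_
    have h3 := hv 1
    rw [map_one] at h3
    have h4 := hL x 1
    rw [mul_one, h3, mul_zero] at h4
    rw [h4, LinearMap.zero_apply]

end S84

theorem st_UNIQ : ST_UNIQ := by
  intro K L _ _ _ _ _ _ _ m P hP hv
  exact S84.van_lin K L m P hP hv

end Pool.Agent.Helper15.DAK
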